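import Pool.Agent.OrdS.SixAll

/-!
# Derived length of nilpotent groups with a fixed-point-free automorphism of order six

All primes. The proof is in `Pool/Agent/OrdS`.
-/

set_option autoImplicit false

namespace Pool.Agent.OrdS.Old.OrderSix

/-- There is an absolute bound for the derived length of a finite nilpotent group with a
fixed-point-free automorphism `φ` such that `φ ^ 6 = 1`. -/
theorem result : ∃ d : ℕ, ∀ (G : Type) [Group G] [Finite G] [Group.IsNilpotent G] (φ : MulAut G),
    φ ^ 6 = 1 → (∀ g : G, φ g = g → g = 1) → derivedSeries G d = ⊥ :=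
  Pool.Agent.OrdS.sixAll

end Pool.Agent.OrdS.Old.OrderSix
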